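import Pool.Agent.Lib.MP_688fd0_co.LIN.Iface2

/-!
Asymptotic version and vertex-transitive graphs: module statements.
-/

set_option autoImplicit false

namespace Pool.Agent.Lib.MP_688fd0_co.ASY

open Classical
open Pool.Agent.Lib.MP_688fd0_co.LP (IsP Conn Cyc Symm cay)
open Pool.Agent.Lib.MP_688fd0_co.LIN

universe u

/-- START3: near-perfect start in regular graphs of large degree. -/
def Start3Statement : Prop := ∀ (ε : ℝ), 0 < ε → ∀ l : ℕ, ∃ d0 : ℕ, ∀ (V : Type u) [Fintype V] (G : SimpleGraph V)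
  (d : ℕ), (∀ v, dg G v = d) → d0 ≤ d → Rat G l (1 - ε)

/-- STEP3: the degree-free version of STEP. -/
def Step3Statement : Prop := ∃ C0 : ℕ, ∀ (V : Type u) [Fintype V] (G H : SimpleGraph V), VT G → ∀ D, Diam G D →
  ∀ l K s : ℕ, Opt G l H → 1 ≤ K → s ≤ D → C0 * K ^ 3 * (s + 1) ≤ l → 2 ≤ ncyc H →
  (s = D ∨ 8 * Fintype.card V ≤ bn G s * ncyc H) → K * l * ncyc H < (cov H).card

/-- NEXT3: the degree-free version of NEXT. -/
def Next3Statement : Prop := ∃ C0 : ℕ, ∀ (V : Type u) [Fintype V] (G : SimpleGraph V), VT G → ∀ D, Diam G D →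
  ∀ l K s : ℕ, 2 ≤ K → s ≤ D → C0 * K ^ 3 * (s + 1) ≤ l → ∀ x : ℝ, 0 < x →
  (s = D ∨ (C0 * K * l : ℝ) ≤ x * bn G s) → Rat G l x →
    ((∃ c, Cyc G c ∧ x * (Fintype.card V : ℝ) ≤ c.length) ∨ Rat G (2 * l) (x * (1 - 1 / (K - 1)))) ∧
    ((K : ℝ) * l ≤ x * (Fintype.card V : ℝ) → Rat G (2 * l) (x * (1 - 1 / (K - 1))))

/-- T1V: linear length in all vertex-transitive graphs. -/
def T1vStatement : Prop := ∃ c : ℝ, 0 < c ∧ ∀ (V : Type u) [Fintype V] (G : SimpleGraph V), VT G →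
  3 ≤ Fintype.card V → ∃ cy, Cyc G cy ∧ c * (Fintype.card V : ℝ) ≤ cy.length

/-- T2V: local to global, with the diameter condition. -/
def T2vStatement : Prop := ∀ ε : ℝ, 0 < ε → ε < 1 → ∃ C : ℕ, ∀ (V : Type u) [Fintype V] (G : SimpleGraph V), VT G →
  (∀ D, Diam G D → (D : ℝ) * (Real.logb 2 (Fintype.card V)) ^ 9 ≤ Fintype.card V) →
  (∃ F : Finset (List V), (∀ c ∈ F, Cyc G c ∧ C ≤ c.length) ∧ PD F ∧
    (1 - ε) * (Fintype.card V : ℝ) ≤ ∑ c ∈ F, (c.length : ℝ)) →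
  ∃ c, Cyc G c ∧ (1 - 2 * ε) * (Fintype.card V : ℝ) ≤ c.length

/-- T3V: large degree, with the diameter condition. -/
def T3vStatement : Prop := ∀ ε : ℝ, 0 < ε → ∃ d0 : ℕ, ∀ (V : Type u) [Fintype V] (G : SimpleGraph V), VT G →
  (∀ D, Diam G D → (D : ℝ) * (Real.logb 2 (Fintype.card V)) ^ 9 ≤ Fintype.card V) → (∃ v, d0 ≤ dg G v) →
  ∃ c, Cyc G c ∧ (1 - ε) * (Fintype.card V : ℝ) ≤ c.length

end Pool.Agent.Lib.MP_688fd0_co.ASY
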