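import Pool.Agent.Lib.MP_688fd0_co.ASY.H18.TubeMain
import Pool.Agent.Lib.MP_688fd0_co.ASY.N43.AllStep3
import Pool.Agent.Lib.MP_688fd0_co.LIN.H91.Start3

/-!
Asymptotic version and vertex-transitive graphs: assembly.
-/

set_option autoImplicit false

namespace Pool.Agent.Lib.MP_688fd0_co.ASY

open Pool.Agent.Lib.MP_688fd0_co.LIN

universe u

theorem all_start3 : Start3Statement.{u} := H91.start3

theorem all_next3 : Next3Statement.{u} := H18.next3 N43.all_step3 H15.opt H43.enum

theorem all_t1v : T1vStatement.{u} :=
  H18.t1v all_next all_next3 all_start3 all_endc (H34.geoc H89.ring H89.geo) (H51.start H51.peel H89.base H15.opt)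
    H15.opt H15.mass H89.base H89.mono all_ling (H53.growth H89.base) H53.growth2

theorem all_t2v : T2vStatement.{u} := H18.t2v all_next3 H15.opt H89.base H89.mono all_ling

theorem all_t3v : T3vStatement.{u} := H18.t3v all_next3 all_start3 H15.opt H89.base H89.mono all_ling

theorem all_t2vu (hTube : TubeStatement.{u}) : T2vuStatement.{u} :=
  H18.t2vu all_next3 hTube H15.opt H43.enum H89.base H89.mono all_ling

theorem all_t3vu (hTube : TubeStatement.{u}) : T3vuStatement.{u} :=
  H18.t3vu all_next3 all_start3 hTube H15.opt H43.enum H89.base H89.mono all_ling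

end Pool.Agent.Lib.MP_688fd0_co.ASY
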