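import Pool.Agent.Lib.MP_688fd0_co.ASY.Iface

/-!
The one-dimensional case: module statements.
-/

set_option autoImplicit false

namespace Pool.Agent.Lib.MP_688fd0_co.ASY

open Classical
open Pool.Agent.Lib.MP_688fd0_co.LP (IsP Conn Cyc Symm cay)
open Pool.Agent.Lib.MP_688fd0_co.LIN

universe u

/-- TUBE: in a long thin tube an optimal family consists of one cycle only. -/
def TubeStatement : Prop := ∃ C k : ℕ, ∀ (V : Type u) [Fintype V] (G H : SimpleGraph V), VT G →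
  (∃ v, 3 ≤ dg G v) → ∀ D, Diam G D → ∀ r w l : ℕ, w = 2 * r + 1 → bn G (r + 15 * w) < 32 * bn G r → Opt G l H →
  C * (bn G r) ^ k ≤ l → C * l ^ k ≤ D → ncyc H ≤ 1

/-- T2VU: local to global. -/
def T2vuStatement : Prop := ∀ ε : ℝ, 0 < ε → ε < 1 → ∃ C : ℕ, ∀ (V : Type u) [Fintype V] (G : SimpleGraph V), VT G →
  (∃ F : Finset (List V), (∀ c ∈ F, Cyc G c ∧ C ≤ c.length) ∧ PD F ∧
    (1 - ε) * (Fintype.card V : ℝ) ≤ ∑ c ∈ F, (c.length : ℝ)) →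
  ∃ c, Cyc G c ∧ (1 - 2 * ε) * (Fintype.card V : ℝ) ≤ c.length

/-- T3VU: large degree. -/
def T3vuStatement : Prop := ∀ ε : ℝ, 0 < ε → ∃ d0 : ℕ, ∀ (V : Type u) [Fintype V] (G : SimpleGraph V), VT G →
  (∃ v, d0 ≤ dg G v) → ∃ c, Cyc G c ∧ (1 - ε) * (Fintype.card V : ℝ) ≤ c.length

end Pool.Agent.Lib.MP_688fd0_co.ASY
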